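import Pool.Agent.helper26.Fin.G2s
import Pool.Agent.helper18.FinAdj

/-!
# Module G2a of MP_f09395_gt: the groups `G₂`, `H = SU(2)` and their Lie algebras
-/

noncomputable section

namespace Pool.Agent.Helper93.Fin

open scoped ContDiff Quaternion Matrix

open NormedSpace

namespace GA

/-! ### exponentials in a Banach algebra -/

section gen

variable {𝔸 : Type*} [NormedRing 𝔸] [NormedAlgebra ℝ 𝔸] [CompleteSpace 𝔸]

lemma exp_neg_exp (X : 𝔸) (t : ℝ) : exp (-(t • X)) * exp (t • X) = (1 : 𝔸) := by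
  have : NormedAlgebra ℚ 𝔸 := NormedAlgebra.restrictScalars ℚ ℝ 𝔸
  rw [← exp_add_of_commute (Commute.neg_left (Commute.refl (t • X))), neg_add_cancel, exp_zero]

lemma exp_exp_neg (X : 𝔸) (t : ℝ) : exp (t • X) * exp (-(t • X)) = (1 : 𝔸) := by
  have : NormedAlgebra ℚ 𝔸 := NormedAlgebra.restrictScalars ℚ ℝ 𝔸
  rw [← exp_add_of_commute (Commute.neg_right (Commute.refl (t • X))), add_neg_cancel, exp_zero]

/-- the unit `exp (t X)` -/
def uexp (X : 𝔸) (t : ℝ) : 𝔸ˣ :=
  ⟨exp (t • X), exp (-(t • X)), exp_exp_neg X t, exp_neg_exp X t⟩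

lemma mem_lieAlg_of {G : Subgroup 𝔸ˣ} {X : 𝔸} (h : ∀ t, uexp X t ∈ G) : X ∈ lieAlg G :=
  fun t => ⟨uexp X t, h t, rfl⟩

lemma uexp_mem {G : Subgroup 𝔸ˣ} {X : 𝔸} (h : X ∈ lieAlg G) (t : ℝ) : uexp X t ∈ G := by
  obtain ⟨g, hg, e⟩ := h t
  have : g = uexp X t := Units.ext e
  rw [← this]; exact hg

lemma uexp_zero (X : 𝔸) : (uexp X 0 : 𝔸) = 1 := by
  show exp ((0 : ℝ) • X) = 1
  rw [zero_smul, exp_zero]

variable {W : Type*} [NormedAddCommGroup W] [NormedSpace ℝ W] (ρ : 𝔸 →L[ℝ] W →L[ℝ] W)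

lemma hasDerivAt_uexp (X : 𝔸) {a : ℝ → W} {a' : W} {t : ℝ} (ha : HasDerivAt a a' t) :
    HasDerivAt (fun s : ℝ => ρ (uexp X s : 𝔸) (a s))
      (ρ ((uexp X t : 𝔸) * X) (a t) + ρ (uexp X t : 𝔸) a') t := by
  have h0 : HasDerivAt (fun s : ℝ => (uexp X s : 𝔸)) ((uexp X t : 𝔸) * X) t :=
    hasDerivAt_exp_smul_const (𝕂 := ℝ) X t
  have h1 : HasDerivAt (fun s : ℝ => ρ (uexp X s : 𝔸)) (ρ ((uexp X t : 𝔸) * X)) t :=
    ρ.hasFDerivAt.comp_hasDerivAt t h0
  exact h1.clm_apply ha

variable (hρ : ∀ a b w, ρ (a * b) w = ρ a (ρ b w)) (h1 : ∀ w, ρ 1 w = w)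
include hρ

lemma hasDerivAt_uexp' (X : 𝔸) (w : W) (t : ℝ) :
    HasDerivAt (fun s : ℝ => ρ (uexp X s : 𝔸) w) (ρ X (ρ (uexp X t : 𝔸) w)) t := by
  have h0 : HasDerivAt (fun s : ℝ => (uexp X s : 𝔸)) (X * (uexp X t : 𝔸)) t :=
    hasDerivAt_exp_smul_const' (𝕂 := ℝ) X t
  have h1 : HasDerivAt (fun s : ℝ => ρ (uexp X s : 𝔸)) (ρ (X * (uexp X t : 𝔸))) t :=
    ρ.hasFDerivAt.comp_hasDerivAt t h0
  have h2 := h1.clm_apply (hasDerivAt_const t w)
  simpa [hρ] using h2

include h1 in
/-- uniqueness: a solution of `v' = X v` is `exp(tX) v(0)` -/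
lemma ode (X : 𝔸) {v : ℝ → W} (hv : ∀ t, HasDerivAt v (ρ X (v t)) t) (t : ℝ) :
    v t = ρ (uexp X t : 𝔸) (v 0) := by
  have h1' : ∀ s, HasDerivAt (fun s : ℝ => ρ (uexp (-X) s : 𝔸) (v s)) 0 s := by
    intro s
    have h2 := hasDerivAt_uexp ρ (-X) (hv s)
    convert h2 using 1
    rw [mul_neg, map_neg, neg_apply, hρ, neg_add_cancel]
  have h3 : ρ (uexp (-X) t : 𝔸) (v t) = v 0 := by
    have h4 := is_const_of_deriv_eq_zero (fun s => (h1' s).differentiableAt)
      (fun s => (h1' s).deriv) t 0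
    rw [h4, uexp_zero, h1]
  have h5 : ρ (uexp X t : 𝔸) (ρ (uexp (-X) t : 𝔸) (v t)) = v t := by
    rw [← hρ]
    have : (uexp X t : 𝔸) * (uexp (-X) t : 𝔸) = 1 := by
      show exp (t • X) * exp (t • -X) = 1
      rw [smul_neg]; exact exp_exp_neg X t
    rw [this, h1]
  rw [← h5, h3]

end gen

end GA

open GA

namespace G2

namespace A

attribute [local simp] e0_re e0_imI e0_imJ e0_imK e1_re e1_imI e1_imJ e1_imK e2_re e2_imI e2_imJ
  e2_imK

/-- conjugation -/
def starQ : ℍ[ℝ] →L[ℝ] ℍ[ℝ] := LinearMap.toContinuousLinearMap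
  { toFun := fun q => star q
    map_add' := fun x y => star_add x y
    map_smul' := fun c x => Quaternion.star_smul c x }

lemma hasDerivAt_star {a : ℝ → ℍ[ℝ]} {a' : ℍ[ℝ]} {t : ℝ} (ha : HasDerivAt a a' t) :
    HasDerivAt (fun s => star (a s)) (star a') t :=
  starQ.hasFDerivAt.comp_hasDerivAt t ha

/-- the action of `End` on the octonions -/
def rho : End →L[ℝ] Oct →L[ℝ] Oct := ContinuousLinearMap.id ℝ End

lemma rho_mul (a b : End) (w : Oct) : rho (a * b) w = rho a (rho b w) := rfl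
lemma rho_one (w : Oct) : rho 1 w = w := rfl
lemma rho_apply (a : End) (w : Oct) : rho a w = a w := rfl

/-! ### octonions -/

lemma hasDerivAt_fst {a : ℝ → Oct} {a' : Oct} {t : ℝ} (ha : HasDerivAt a a' t) :
    HasDerivAt (fun s => (a s).1) a'.1 t :=
  (ContinuousLinearMap.fst ℝ ℍ[ℝ] ℍ[ℝ]).hasFDerivAt.comp_hasDerivAt t ha

lemma hasDerivAt_snd {a : ℝ → Oct} {a' : Oct} {t : ℝ} (ha : HasDerivAt a a' t) :
    HasDerivAt (fun s => (a s).2) a'.2 t :=
  (ContinuousLinearMap.snd ℝ ℍ[ℝ] ℍ[ℝ]).hasFDerivAt.comp_hasDerivAt t ha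

lemma hasDerivAt_omul {a b : ℝ → Oct} {a' b' : Oct} {t : ℝ} (ha : HasDerivAt a a' t)
    (hb : HasDerivAt b b' t) :
    HasDerivAt (fun s => omul (a s) (b s)) (omul a' (b t) + omul (a t) b') t := by
  have h1 := ((hasDerivAt_fst ha).mul (hasDerivAt_fst hb)).sub
    ((hasDerivAt_star (hasDerivAt_snd hb)).mul (hasDerivAt_snd ha))
  have h2 := ((hasDerivAt_snd hb).mul (hasDerivAt_fst ha)).add
    ((hasDerivAt_snd ha).mul (hasDerivAt_star (hasDerivAt_fst hb)))
  have h3 := h1.prodMk h2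
  refine h3.congr_deriv ?_
  refine Prod.ext ?_ ?_
  · simp only [omul, Prod.fst_add]
    abel
  · simp only [omul, Prod.snd_add]
    abel

/-- derivations of the octonions -/
def IsDer (X : End) : Prop := ∀ x y : Oct, X (omul x y) = omul (X x) y + omul x (X y)

lemma omul_add_left (x y z : Oct) : omul (x + y) z = omul x z + omul y z := by
  refine Prod.ext ?_ ?_
  · simp only [omul, Prod.fst_add, Prod.snd_add, add_mul, mul_add]
    abel
  · simp only [omul, Prod.fst_add, Prod.snd_add, add_mul, mul_add]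
    abel

lemma omul_add_right (x y z : Oct) : omul x (y + z) = omul x y + omul x z := by
  refine Prod.ext ?_ ?_
  · simp only [omul, Prod.fst_add, Prod.snd_add, add_mul, mul_add, star_add]
    abel
  · simp only [omul, Prod.fst_add, Prod.snd_add, add_mul, mul_add, star_add]
    abel

lemma IsDer.add {X Y : End} (hX : IsDer X) (hY : IsDer Y) : IsDer (X + Y) := by
  intro x y
  simp only [add_apply]
  rw [hX, hY, omul_add_left, omul_add_right]
  abel

lemma isDer_hel {q : ℍ[ℝ]} (hq : q.re = 0) : IsDer (hel q) := by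
  intro x y
  have hs : star q = -q := by
    apply Quaternion.ext <;> simp [hq]
  refine Prod.ext ?_ ?_
  · simp only [hel_apply, omul, Prod.fst_add, star_mul, hs, zero_mul, mul_assoc, mul_neg, neg_mul,
      zero_sub, sub_neg_eq_add]
    simp
  · simp only [hel_apply, omul, Prod.snd_add, mul_zero, star_zero, mul_add, mul_assoc]
    abel

lemma isDer_kel {q : ℍ[ℝ]} (hq : q.re = 0) : IsDer (kel q) := by
  intro x y
  have hs : star q = -q := by
    apply Quaternion.ext <;> simp [hq]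
  refine Prod.ext ?_ ?_
  · simp only [kel_apply, omul, Prod.fst_add, star_mul, star_neg, hs]
    noncomm_ring
  · simp only [kel_apply, omul, Prod.snd_add, star_mul, star_neg, star_sub, hs]
    noncomm_ring

lemma isDer_pel {P : Fin 3 → ℍ[ℝ]} (hP : ∑ s, P s * e s = 0) : IsDer (pel P) := by
  obtain ⟨h1, h2, h3, h4⟩ := cn_iff.1 hP
  intro x y
  refine Prod.ext ?_ ?_
  · apply Quaternion.ext
    · simp [omul, pel_1re, pel_1I, pel_1J, pel_1K, pel_2, h1, h2, h3, h4]
      ring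
    · simp [omul, pel_1re, pel_1I, pel_1J, pel_1K, pel_2, h1, h2, h3, h4]
      ring
    · simp [omul, pel_1re, pel_1I, pel_1J, pel_1K, pel_2, h1, h2, h3, h4]
      ring
    · simp [omul, pel_1re, pel_1I, pel_1J, pel_1K, pel_2, h1, h2, h3, h4]
      ring
  · apply Quaternion.ext
    · simp [omul, pel_1re, pel_1I, pel_1J, pel_1K, pel_2, h1, h2, h3, h4]
      ring
    · simp [omul, pel_1re, pel_1I, pel_1J, pel_1K, pel_2, h1, h2, h3, h4]
      ring
    · simp [omul, pel_1re, pel_1I, pel_1J, pel_1K, pel_2, h1, h2, h3, h4]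
      ring
    · simp [omul, pel_1re, pel_1I, pel_1J, pel_1K, pel_2, h1, h2, h3, h4]
      ring

lemma isDer_of_mem {X : End} (hX : X ∈ sh ⊔ sk ⊔ sp) : IsDer X := by
  obtain ⟨Y, hY, Z, hZ, rfl⟩ := Submodule.mem_sup.1 hX
  obtain ⟨U, hU, W, hW, rfl⟩ := Submodule.mem_sup.1 hY
  obtain ⟨q, hq, rfl⟩ := (mem_sh _).1 hU
  obtain ⟨q', hq', rfl⟩ := (mem_sk _).1 hW
  obtain ⟨P, hP, rfl⟩ := (mem_sp _).1 hZ
  exact ((isDer_hel hq).add (isDer_kel hq')).add (isDer_pel hP)

/-- an endomorphism is determined by its values on a basis -/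
lemma oct_ext {X Y : End} (h1 : X (1, 0) = Y (1, 0)) (h2 : ∀ s, X (e s, 0) = Y (e s, 0))
    (h3 : X (0, 1) = Y (0, 1)) (h4 : ∀ s, X (0, e s) = Y (0, e s)) : X = Y := by
  refine ContinuousLinearMap.ext fun x => ?_
  have hx : x = x.1.re • ((1 : ℍ[ℝ]), (0 : ℍ[ℝ])) + x.1.imI • (e 0, (0 : ℍ[ℝ])) +
      x.1.imJ • (e 1, (0 : ℍ[ℝ])) + x.1.imK • (e 2, (0 : ℍ[ℝ])) +
      x.2.re • ((0 : ℍ[ℝ]), (1 : ℍ[ℝ])) + x.2.imI • ((0 : ℍ[ℝ]), e 0) +
      x.2.imJ • ((0 : ℍ[ℝ]), e 1) + x.2.imK • ((0 : ℍ[ℝ]), e 2) := by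
    refine Prod.ext ?_ ?_
    · apply Quaternion.ext <;> simp
    · apply Quaternion.ext <;> simp
  rw [hx]
  simp only [map_add, map_smul, h1, h2, h3, h4]

/-- a derivation is in the span -/
lemma mem_of_isDer {X : End} (hX : IsDer X) : X ∈ sh ⊔ sk ⊔ sp := by
  -- values on the generators
  have one : X (1, 0) = 0 := by
    have := hX (1, 0) (1, 0)
    simp only [omul] at this
    have h2 := congrArg Prod.fst this
    have h3 := congrArg Prod.snd this
    simp at h2 h3
    exact Prod.ext h2 h3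
  have sq : ∀ s, omul (X (e s, 0)) (e s, 0) + omul (e s, 0) (X (e s, 0)) = 0 := by
    intro s
    rw [← hX]
    have : omul (e s, 0) (e s, 0) = (-1 : ℝ) • ((1 : ℍ[ℝ]), (0 : ℍ[ℝ])) := by
      refine Prod.ext ?_ ?_
      · apply Quaternion.ext <;> fin_cases s <;> simp [omul, e]
      · simp [omul]
    rw [this, map_smul, one, smul_zero]
  have s2 : X (e 2, 0) = omul (X (e 0, 0)) (e 1, 0) + omul (e 0, 0) (X (e 1, 0)) := by
    rw [← hX]
    congr 1
    refine Prod.ext ?_ ?_
    · apply Quaternion.ext <;> simp [omul]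
    · simp [omul]
  have el : ∀ s, X (0, e s) = omul (X (e s, 0)) (0, 1) + omul (e s, 0) (X (0, 1)) := by
    intro s
    rw [← hX]
    congr 1
    refine Prod.ext ?_ ?_ <;> simp [omul]
  have le' : ∀ s, - X (0, e s) = omul (X (0, 1)) (e s, 0) + omul (0, 1) (X (e s, 0)) := by
    intro s
    rw [← hX, ← map_neg]
    congr 1
    refine Prod.ext ?_ ?_
    · simp [omul]
    · apply Quaternion.ext <;> fin_cases s <;> simp [omul, e]
  have ll : omul (X (0, 1)) (0, 1) + omul (0, 1) (X (0, 1)) = 0 := by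
    rw [← hX]
    have : omul (0, 1) (0, 1) = (-1 : ℝ) • ((1 : ℍ[ℝ]), (0 : ℍ[ℝ])) := by
      refine Prod.ext ?_ ?_
      · apply Quaternion.ext <;> simp [omul]
      · simp [omul]
    rw [this, map_smul, one, smul_zero]
  set u : Fin 3 → ℍ[ℝ] := fun s => (X (e s, 0)).1 with hu
  set v : Fin 3 → ℍ[ℝ] := fun s => (X (e s, 0)).2 with hv
  set a : ℍ[ℝ] := (X (0, 1)).1 with ha
  set b : ℍ[ℝ] := (X (0, 1)).2 with hb
  have hXe : ∀ s, X (e s, 0) = (u s, v s) := fun s => rfl
  have hX1 : X (0, 1) = (a, b) := rfl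
  simp only [hXe, hX1] at sq s2 el le' ll
  -- equations in components
  have q0 := congrArg Prod.fst (sq 0)
  have q1 := congrArg Prod.fst (sq 1)
  have q2 := congrArg Prod.fst (sq 2)
  have r1 := congrArg Prod.fst s2
  have r2 := congrArg Prod.snd s2
  have t1 := congrArg Prod.fst ll
  have t2 := congrArg Prod.snd ll
  have m0 := congrArg Prod.fst (el 0)
  have m1 := congrArg Prod.fst (el 1)
  have m2 := congrArg Prod.fst (el 2)
  have n0 := congrArg Prod.fst (le' 0)
  have n1 := congrArg Prod.fst (le' 1)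
  have n2 := congrArg Prod.fst (le' 2)
  simp only [omul, Prod.fst_add, Prod.snd_add, Prod.fst_neg, Prod.fst_zero,
    Prod.snd_zero] at q0 q1 q2 r1 r2 t1 t2 m0 m1 m2 n0 n1 n2
  rw [m0] at n0
  rw [m1] at n1
  rw [m2] at n2
  rw [Quaternion.ext_iff] at q0 q1 q2 r1 r2 t1 t2 n0 n1 n2
  simp at q0 q1 q2 r1 r2 t1 t2 n0 n1 n2
  obtain ⟨r11, r12, r13, r14⟩ := r1
  obtain ⟨r21, r22, r23, r24⟩ := r2
  -- the components
  set q : ℍ[ℝ] := ⟨0, (u 1).imK / 2, -(u 0).imK / 2, (u 0).imJ / 2⟩ with hq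
  have hqI : q.imI = (u 1).imK / 2 := rfl
  have hqJ : q.imJ = -(u 0).imK / 2 := rfl
  have hqK : q.imK = (u 0).imJ / 2 := rfl
  have hqr : q.re = 0 := rfl
  have hP : ∑ s, v s * e s = 0 := by
    rw [cn_iff]
    refine ⟨?_, ?_, ?_, ?_⟩ <;> linarith
  have hbr : (b + q).re = 0 := by
    rw [Quaternion.re_add, hqr]
    linarith
  have key : X = hel (b + q) + kel q + pel v := by
    refine oct_ext ?_ ?_ ?_ ?_
    · rw [one]
      simp only [add_apply]
      refine Prod.ext ?_ ?_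
      · apply Quaternion.ext <;> simp [hel_apply, kel_apply, pel_1re, pel_1I, pel_1J, pel_1K]
      · apply Quaternion.ext <;> simp [hel_apply, kel_apply, pel_2]
    · intro s
      rw [hXe]
      simp only [add_apply]
      refine Prod.ext ?_ ?_
      · fin_cases s
        · apply Quaternion.ext <;>
            simp [hel_apply, kel_apply, pel_1re, pel_1I, pel_1J, pel_1K, hqI, hqJ, hqK, hqr] <;>
            linarith
        · apply Quaternion.ext <;>
            simp [hel_apply, kel_apply, pel_1re, pel_1I, pel_1J, pel_1K, hqI, hqJ, hqK, hqr] <;>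
            linarith
        · apply Quaternion.ext <;>
            simp [hel_apply, kel_apply, pel_1re, pel_1I, pel_1J, pel_1K, hqI, hqJ, hqK, hqr] <;>
            linarith
      · fin_cases s <;> apply Quaternion.ext <;> simp [hel_apply, kel_apply, pel_2]
    · rw [hX1]
      simp only [add_apply]
      refine Prod.ext ?_ ?_
      · apply Quaternion.ext <;>
          simp [hel_apply, kel_apply, pel_1re, pel_1I, pel_1J, pel_1K] <;> linarith
      · apply Quaternion.ext <;> simp [hel_apply, kel_apply, pel_2]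
    · intro s
      rw [el]
      simp only [add_apply]
      refine Prod.ext ?_ ?_
      · fin_cases s <;> apply Quaternion.ext <;>
          simp [omul, hel_apply, kel_apply, pel_1re, pel_1I, pel_1J, pel_1K] <;> linarith
      · fin_cases s <;> apply Quaternion.ext <;>
          simp [omul, hel_apply, kel_apply, pel_2, hqI, hqJ, hqK, hqr] <;> linarith
  rw [key]
  exact Submodule.add_mem_sup (Submodule.add_mem_sup ((mem_sh _).2 ⟨_, hbr, rfl⟩)
    ((mem_sk _).2 ⟨q, hqr, rfl⟩)) ((mem_sp _).2 ⟨v, hP, rfl⟩)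

/-- exponentials of derivations are automorphisms -/
lemma uexp_aut {X : End} (hX : IsDer X) (t : ℝ) (x y : Oct) :
    (uexp X t : End) (omul x y) = omul ((uexp X t : End) x) ((uexp X t : End) y) := by
  have h1 := ode rho rho_mul rho_one X
    (v := fun s => omul (rho (uexp X s : End) x) (rho (uexp X s : End) y)) (fun s => by
      have h2 := hasDerivAt_omul (hasDerivAt_uexp' rho rho_mul X x s)
        (hasDerivAt_uexp' rho rho_mul X y s)
      refine h2.congr_deriv ?_
      exact (hX _ _).symm) t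
  have h3 : omul (rho (uexp X 0 : End) x) (rho (uexp X 0 : End) y) = omul x y := by
    rw [uexp_zero, rho_one, rho_one]
  rw [h3] at h1
  exact h1.symm

/-- an automorphism group has derivations as its Lie algebra -/
lemma isDer_of_lie {X : End} (hX : X ∈ lieAlg G) : IsDer X := by
  intro x y
  have h1 : ∀ z : Oct, HasDerivAt (fun s : ℝ => rho (uexp X s : End) z) (X z) 0 := fun z => by
    have := hasDerivAt_uexp' rho rho_mul X z 0
    rw [uexp_zero, rho_one] at this
    exact this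
  have h2 := hasDerivAt_omul (h1 x) (h1 y)
  have h3 : (fun s : ℝ => omul (rho (uexp X s : End) x) (rho (uexp X s : End) y)) =
      fun s => rho (uexp X s : End) (omul x y) := by
    funext s
    exact (uexp_mem hX s x y).symm
  rw [h3] at h2
  have h4 := h2.unique (h1 (omul x y))
  rw [uexp_zero, rho_one, rho_one] at h4
  exact h4.symm

lemma star_mul_self' {p : ℍ[ℝ]} (hp : ‖p‖ = 1) : star p * p = 1 := by
  rw [Quaternion.star_mul_self, Quaternion.normSq_eq_norm_mul_self, hp]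
  simp

lemma self_mul_star' {p : ℍ[ℝ]} (hp : ‖p‖ = 1) : p * star p = 1 := by
  rw [Quaternion.self_mul_star, Quaternion.normSq_eq_norm_mul_self, hp]
  simp

/-- the inverse of an element of `H` -/
lemma inv_apply {k : Endˣ} {p : ℍ[ℝ]} (hp : ‖p‖ = 1) (hk : ∀ x : Oct, (k : End) x = (x.1, p * x.2))
    (x : Oct) : ((k⁻¹ : Endˣ) : End) x = (x.1, star p * x.2) := by
  have h1 : ∀ z, ((k⁻¹ : Endˣ) : End) ((k : End) z) = z := by
    intro z
    have : (((k⁻¹ : Endˣ) : End) * (k : End)) z = (1 : End) z := by rw [k.inv_mul]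
    exact this
  have h2 : x = (k : End) (x.1, star p * x.2) := by
    rw [hk]
    refine Prod.ext rfl ?_
    simp only
    rw [← mul_assoc, self_mul_star' hp, one_mul]
  conv_lhs => rw [h2]
  rw [h1]

end A

open A

theorem mem_lieG (X : End) : X ∈ sh ⊔ sk ⊔ sp ↔ X ∈ lieAlg G :=
  ⟨fun h => mem_lieAlg_of fun t x y => uexp_aut (isDer_of_mem h) t x y,
    fun h => mem_of_isDer (isDer_of_lie h)⟩

theorem mem_lieH (X : End) : X ∈ sh ↔ X ∈ lieAlg H := by
  constructor
  · intro h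
    obtain ⟨q, hq, rfl⟩ := (mem_sh _).1 h
    refine mem_lieAlg_of fun t => ⟨(uexp q t : ℍ[ℝ]), ?_, fun x => ?_⟩
    · show ‖exp (t • q)‖ = 1
      rw [Quaternion.norm_exp]
      simp [hq]
    · have h1 := ode rho rho_mul rho_one (hel q)
        (v := fun s => ((x.1, (uexp q s : ℍ[ℝ]) * x.2) : Oct)) (fun s => by
          have h2 : HasDerivAt (fun s : ℝ => (uexp q s : ℍ[ℝ])) (q * (uexp q s : ℍ[ℝ])) s :=
            hasDerivAt_exp_smul_const' (𝕂 := ℝ) q s
          have h3 := (hasDerivAt_const s x.1).prodMk (h2.mul_const x.2)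
          refine h3.congr_deriv ?_
          rw [rho_apply, hel_apply]
          simp only [mul_assoc]) t
      have h3 : ((x.1, (uexp q 0 : ℍ[ℝ]) * x.2) : Oct) = x := by
        rw [uexp_zero, one_mul]
      rw [h3] at h1
      exact h1.symm
  · intro h
    have h1 : ∀ z : Oct, HasDerivAt (fun s : ℝ => rho (uexp X s : End) z) (X z) 0 := fun z => by
      have := hasDerivAt_uexp' rho rho_mul X z 0
      rw [uexp_zero, rho_one] at this
      exact this
    choose p hp hpx using fun t => uexp_mem h t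
    have e1 : ∀ t z, rho (uexp X t : End) z = (z.1, p t * z.2) := fun t z => hpx t z
    have dp : HasDerivAt p (X (0, 1)).2 0 := by
      have h2 := hasDerivAt_snd (h1 (0, 1))
      refine h2.congr_of_eventuallyEq (Filter.Eventually.of_forall fun t => ?_)
      simp only
      rw [e1]; simp
    set q : ℍ[ℝ] := (X (0, 1)).2 with hq
    have p0 : p 0 = 1 := by
      have h2 := e1 0 (0, 1)
      rw [uexp_zero, rho_one] at h2
      have := congrArg Prod.snd h2
      simpa using this.symm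
    rw [mem_sh]
    refine ⟨q, ?_, ?_⟩
    · have h2 : HasDerivAt (fun t => star (p t) * p t) (star q * p 0 + star (p 0) * q) 0 :=
        (hasDerivAt_star dp).mul dp
      have h3 : (fun t => star (p t) * p t) = fun _ => (1 : ℍ[ℝ]) := by
        funext t; exact star_mul_self' (hp t)
      rw [h3] at h2
      have h4 := h2.unique (hasDerivAt_const (0 : ℝ) (1 : ℍ[ℝ]))
      rw [p0] at h4
      have h5 := congrArg (fun z : ℍ[ℝ] => z.re) h4
      simp at h5
      exact h5
    · refine ContinuousLinearMap.ext fun z => ?_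
      have h2 : HasDerivAt (fun t => ((z.1, p t * z.2) : Oct)) (0, q * z.2) 0 :=
        (hasDerivAt_const (0 : ℝ) z.1).prodMk (dp.mul_const z.2)
      have h3 := h1 z
      have h4 : (fun s : ℝ => rho (uexp X s : End) z) = fun t => ((z.1, p t * z.2) : Oct) :=
        funext fun t => e1 t z
      rw [h4] at h3
      rw [h3.unique h2, hel_apply]

theorem H_le : H ≤ G := by
  rintro k ⟨p, hp, hk⟩ x y
  rw [hk, hk, hk]
  refine Prod.ext ?_ ?_
  · simp only [omul, star_mul]
    rw [mul_assoc (star y.2), ← mul_assoc (star p), star_mul_self' hp, one_mul]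
  · simp only [omul]
    noncomm_ring

theorem Ad_m : ∀ k ∈ H, ∀ Z ∈ m, Adj k Z ∈ m := by
  rintro k ⟨p, hp, hk⟩ Z ⟨q, P, hq, hP, hZ⟩
  refine ⟨q, fun s => p * P s, hq, ?_, fun x => ?_⟩
  · simp only [mul_assoc, ← Finset.mul_sum, hP, mul_zero]
  · have h1 : Adj k Z x = (k : End) (Z (((k⁻¹ : Endˣ) : End) x)) := rfl
    rw [h1, inv_apply hp hk, hZ, hk]
    refine Prod.ext ?_ ?_
    · simp only [act]
      congr 1
      refine Finset.sum_congr rfl fun s _ => ?_
      congr 1
      rw [star_mul, ← mul_assoc]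
      have : ∀ a b : ℍ[ℝ], (a * b).re = (b * a).re := fun a b => by
        simp; ring
      rw [mul_assoc (star p), this]
    · simp only [act, mul_add, mul_sub, mul_smul_comm]
      congr 1
      rw [← mul_assoc, ← mul_assoc, self_mul_star' hp, one_mul]

theorem Ad_h : ∀ k ∈ H, ∀ Z ∈ sh, Adj k Z ∈ sh := by
  rintro k ⟨p, hp, hk⟩ Z hZ
  obtain ⟨q, hq, rfl⟩ := (mem_sh _).1 hZ
  rw [mem_sh]
  refine ⟨p * q * star p, ?_, ?_⟩
  · have : ∀ a b : ℍ[ℝ], (a * b).re = (b * a).re := fun a b => by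
      simp; ring
    rw [this, ← mul_assoc, star_mul_self' hp, one_mul, hq]
  · refine ContinuousLinearMap.ext fun x => ?_
    have h1 : Adj k (hel q) x = (k : End) (hel q (((k⁻¹ : Endˣ) : End) x)) := rfl
    rw [h1, inv_apply hp hk, hel_apply, hk, hel_apply]
    refine Prod.ext rfl ?_
    simp only [mul_assoc]

theorem isReductive : IsReductive (𝔸 := End) G H m where
  le := H_le
  sum := by
    intro X
    rw [← mem_lieG, sup_assoc, ← m_eq, Submodule.mem_sup]
    constructor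
    · rintro ⟨Y, hY, Z, hZ, rfl⟩
      exact ⟨Y, (mem_lieH Y).1 hY, Z, hZ, rfl⟩
    · rintro ⟨Y, hY, Z, hZ, rfl⟩
      exact ⟨Y, (mem_lieH Y).2 hY, Z, hZ, rfl⟩
  disj := by
    intro Z hZ hZ'
    rw [← mem_lieH] at hZ'
    rw [m_eq, Submodule.mem_sup] at hZ
    obtain ⟨Y, hY, W, hW, rfl⟩ := hZ
    have h1 := symData.Ph_h _ hZ'
    rw [map_add, symData.Ph_k _ hY, symData.Ph_p _ hW, add_zero] at h1
    exact h1.symm
  inv := Ad_m

end G2

end Pool.Agent.Helper93.Fin
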