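import Pool.Agent.helper77.FinD
import Pool.Agent.Helper93.Fin.E

/-!
# Modules Lim1, Lim2 of MP_f09395_gt: behaviour of the curvature form under change of `u`, `b`;
continuity of the solution of a linear system
-/

noncomputable section

namespace Pool.Agent.Helper93.Fin

open scoped ContDiff

open Filter Topology

namespace L1

section scal

variable {E W : Type*} [NormedAddCommGroup E] [NormedSpace ℝ E] [NormedAddCommGroup W]
  [NormedSpace ℝ W]

/-- the derivative of a function with `g (c z) = k g z` -/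
lemma fderiv_scal {g : E → W} {c k : ℝ} (hg : ∀ z : E, g (c • z) = k • g z) {u : E}
    (h1 : DifferentiableAt ℝ g (c • u)) (h2 : DifferentiableAt ℝ g u) (a : E) :
    c • fderiv ℝ g (c • u) a = k • fderiv ℝ g u a := by
  have e1 : HasFDerivAt (fun z : E => g (c • z)) ((fderiv ℝ g (c • u)).comp
      (c • ContinuousLinearMap.id ℝ E)) u :=
    HasFDerivAt.comp u h1.hasFDerivAt ((hasFDerivAt_id u).const_smul c)
  have e2 : HasFDerivAt (fun z : E => g (c • z)) (k • fderiv ℝ g u) u := by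
    have : (fun z : E => g (c • z)) = fun z => k • g z := funext hg
    rw [this]; exact h2.hasFDerivAt.const_smul k
  have e3 := congrArg (fun A : E →L[ℝ] W => A a) (e1.unique e2)
  simpa using e3

/-- Euler's relation for a function homogeneous with exponent `n` -/
lemma euler_gen {g : E → W} {u : E} {n : ℤ} (hg : ∀ c : ℝ, c ≠ 0 → g (c • u) = c ^ n • g u)
    (h : DifferentiableAt ℝ g u) : fderiv ℝ g u u = (n : ℝ) • g u := by
  have e0 : HasFDerivAt g (fderiv ℝ g u) ((1 : ℝ) • u) := by rw [one_smul]; exact h.hasFDerivAt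
  have e1 : HasDerivAt (fun s : ℝ => g (s • u)) (fderiv ℝ g u u) 1 := by
    have h3 : HasDerivAt (fun s : ℝ => s • u) ((1 : ℝ) • u) 1 := (hasDerivAt_id 1).smul_const u
    have := HasFDerivAt.comp_hasDerivAt (1 : ℝ) e0 h3
    rw [one_smul] at this
    exact this
  have e2 : HasDerivAt (fun s : ℝ => s ^ n • g u) (((n : ℝ) * (1 : ℝ) ^ (n - 1)) • g u) 1 :=
    (hasDerivAt_zpow n 1 (Or.inl one_ne_zero)).smul_const (g u)
  have e3 : (fun s : ℝ => g (s • u)) =ᶠ[𝓝 1] fun s : ℝ => s ^ n • g u := by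
    filter_upwards [isOpen_ne.mem_nhds (show (1 : ℝ) ≠ 0 from one_ne_zero)] with s hs
    exact hg s hs
  have e4 := e1.unique (e2.congr_of_eventuallyEq e3)
  simpa using e4

end scal

section D

variable {E : Type*} [NormedAddCommGroup E] [NormedSpace ℝ E] {f : E → ℝ}

lemma contDiffOn_fderiv {W : Type*} [NormedAddCommGroup W] [NormedSpace ℝ W] {g : E → W}
    (hg : ContDiffOn ℝ ∞ g {0}ᶜ) (a : E) :
    ContDiffOn ℝ ∞ (fun z => fderiv ℝ g z a) {0}ᶜ := by
  have h1 : ContDiffOn ℝ ∞ (fderiv ℝ g) {0}ᶜ :=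
    hg.fderiv_of_isOpen isOpen_compl_singleton (by simp)
  exact h1.clm_apply contDiffOn_const

lemma diffAt {W : Type*} [NormedAddCommGroup W] [NormedSpace ℝ W] {g : E → W}
    (hg : ContDiffOn ℝ ∞ g {0}ᶜ) {u : E} (hu : u ≠ 0) : DifferentiableAt ℝ g u :=
  (hg.contDiffAt (isOpen_compl_singleton.mem_nhds hu)).differentiableAt (by simp)

lemma cD1 (hf : ContDiffOn ℝ ∞ f {0}ᶜ) (a : E) : ContDiffOn ℝ ∞ (fun z => D1 f z a) {0}ᶜ :=
  contDiffOn_fderiv hf a
lemma cD2 (hf : ContDiffOn ℝ ∞ f {0}ᶜ) (a b : E) : ContDiffOn ℝ ∞ (fun z => D2 f z a b) {0}ᶜ :=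
  contDiffOn_fderiv (cD1 hf a) b
lemma cD3 (hf : ContDiffOn ℝ ∞ f {0}ᶜ) (a b c : E) :
    ContDiffOn ℝ ∞ (fun z => D3 f z a b c) {0}ᶜ :=
  contDiffOn_fderiv (cD2 hf a b) c

variable (hf : ContDiffOn ℝ ∞ f {0}ᶜ) (hh : ∀ (c : ℝ) (u : E), f (c • u) = c ^ 2 * f u)
include hf hh

lemma D1_sc {c : ℝ} (hc : c ≠ 0) (u a : E) : D1 f (c • u) a = c * D1 f u a := by
  by_cases hu : u = 0
  · subst hu
    rw [smul_zero]
    -- derivative at `0` of an even function
    have hev : ∀ z : E, f (-z) = f z := fun z => by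
      have := hh (-1) z
      simpa using this
    have h0 : D1 f 0 a = 0 := by
      unfold D1
      by_cases hd : DifferentiableAt ℝ f 0
      · have h1 : HasFDerivAt (fun z : E => f (-z)) ((fderiv ℝ f 0).comp
            (-ContinuousLinearMap.id ℝ E)) 0 := by
          have h2 : HasFDerivAt f (fderiv ℝ f 0) (-(0 : E)) := by rw [neg_zero]; exact hd.hasFDerivAt
          exact HasFDerivAt.comp (0 : E) h2 (hasFDerivAt_id (0 : E)).neg
        rw [show (fun z : E => f (-z)) = f from funext hev] at h1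
        have := congrArg (fun A : E →L[ℝ] ℝ => A a) (h1.unique hd.hasFDerivAt)
        simp at this
        linarith
      · rw [fderiv_zero_of_not_differentiableAt hd]; simp
    rw [h0, mul_zero]
  · have hcu : c • u ≠ 0 := smul_ne_zero hc hu
    have := fderiv_scal (g := f) (c := c) (k := c ^ 2) (fun z => by rw [hh]; rfl)
      (diffAt hf hcu) (diffAt hf hu) a
    simp only [smul_eq_mul] at this
    unfold D1
    have h3 : c * (fderiv ℝ f (c • u) a) = c * (c * fderiv ℝ f u a) := by rw [this]; ring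
    exact mul_left_cancel₀ hc h3

lemma D2_sc {c : ℝ} (hc : c ≠ 0) {u : E} (hu : u ≠ 0) (a b : E) :
    D2 f (c • u) a b = D2 f u a b := by
  have hcu : c • u ≠ 0 := smul_ne_zero hc hu
  have := fderiv_scal (g := fun z => D1 f z a) (c := c) (k := c)
    (fun z => by rw [D1_sc hf hh hc]; rfl) (diffAt (cD1 hf a) hcu) (diffAt (cD1 hf a) hu) b
  simp only [smul_eq_mul] at this
  exact mul_left_cancel₀ hc this

/-- scaling of `D3`: uses only points `z ≠ 0` -/
lemma D3_sc {c : ℝ} (hc : c ≠ 0) {u : E} (hu : u ≠ 0) (a b d : E) :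
    c * D3 f (c • u) a b d = D3 f u a b d := by
  have hcu : c • u ≠ 0 := smul_ne_zero hc hu
  have h1 := diffAt (cD2 hf a b) hcu
  have h2 := diffAt (cD2 hf a b) hu
  have e1 : HasFDerivAt (fun z : E => D2 f (c • z) a b)
      ((fderiv ℝ (fun z => D2 f z a b) (c • u)).comp (c • ContinuousLinearMap.id ℝ E)) u :=
    HasFDerivAt.comp (g := fun z => D2 f z a b) u h1.hasFDerivAt
      ((hasFDerivAt_id u).const_smul c)
  have e2 : HasFDerivAt (fun z : E => D2 f (c • z) a b) (fderiv ℝ (fun z => D2 f z a b) u) u := by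
    refine h2.hasFDerivAt.congr_of_eventuallyEq ?_
    filter_upwards [isOpen_ne.mem_nhds hu] with z hz
    exact D2_sc hf hh hc hz a b
  have e3 := congrArg (fun A : E →L[ℝ] ℝ => A d) (e1.unique e2)
  simp only [ContinuousLinearMap.comp_apply, smul_apply, ContinuousLinearMap.id_apply, map_smul,
    smul_eq_mul] at e3
  exact e3

lemma D4_sc {c : ℝ} (hc : c ≠ 0) {u : E} (hu : u ≠ 0) (a b d e : E) :
    c ^ 2 * D4 f (c • u) a b d e = D4 f u a b d e := by
  have hcu : c • u ≠ 0 := smul_ne_zero hc hu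
  have h1 := diffAt (cD3 hf a b d) hcu
  have h2 := diffAt (cD3 hf a b d) hu
  have e1 : HasFDerivAt (fun z : E => D3 f (c • z) a b d)
      ((fderiv ℝ (fun z => D3 f z a b d) (c • u)).comp (c • ContinuousLinearMap.id ℝ E)) u :=
    HasFDerivAt.comp (g := fun z => D3 f z a b d) u h1.hasFDerivAt
      ((hasFDerivAt_id u).const_smul c)
  have e2 : HasFDerivAt (fun z : E => D3 f (c • z) a b d)
      (c⁻¹ • fderiv ℝ (fun z => D3 f z a b d) u) u := by
    refine (h2.hasFDerivAt.const_smul c⁻¹).congr_of_eventuallyEq ?_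
    filter_upwards [isOpen_ne.mem_nhds hu] with z hz
    have := D3_sc hf hh hc hz a b d
    rw [Pi.smul_apply, ← this]
    simp [hc]
  have e3 := congrArg (fun A : E →L[ℝ] ℝ => A e) (e1.unique e2)
  simp only [ContinuousLinearMap.comp_apply, smul_apply, ContinuousLinearMap.id_apply, map_smul,
    smul_eq_mul] at e3
  unfold D4
  calc c ^ 2 * fderiv ℝ (fun z => D3 f z a b d) (c • u) e
      = c * (c * fderiv ℝ (fun z => D3 f z a b d) (c • u) e) := by ring
    _ = c * (c⁻¹ * fderiv ℝ (fun z => D3 f z a b d) u e) := by rw [e3]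
    _ = _ := by rw [← mul_assoc, mul_inv_cancel₀ hc, one_mul]

lemma D4_euler {u : E} (hu : u ≠ 0) (a b d : E) : D4 f u a b d u = - D3 f u a b d := by
  have := euler_gen (g := fun z => D3 f z a b d) (u := u) (n := -1) (fun c hc => by
    have := D3_sc hf hh hc hu a b d
    rw [← this, zpow_neg_one, smul_eq_mul, ← mul_assoc, inv_mul_cancel₀ hc, one_mul])
    (diffAt (cD3 hf a b d) hu)
  unfold D4
  rw [this]
  simp

end D

/-- continuity of the solution of a linear system, general form -/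
theorem solve_gen {E F : Type*} [NormedAddCommGroup E] [NormedSpace ℝ E]
    [FiniteDimensional ℝ E] [NormedAddCommGroup F] [NormedSpace ℝ F] {ι : Type*} {l : Filter ι}
    {B : ι → E →L[ℝ] F}
    {B₀ : E →L[ℝ] F} (hB : Tendsto B l (𝓝 B₀)) (hinj : ∀ w : E, B₀ w = 0 → w = 0)
    {f : ι → F} {f₀ : F} (hf : Tendsto f l (𝓝 f₀)) {x : ι → E} {x₀ : E}
    (hx : ∀ n, B n (x n) = f n) (hx₀ : B₀ x₀ = f₀) : Tendsto x l (𝓝 x₀) := by
  have hker : (B₀ : E →ₗ[ℝ] F).ker = ⊥ := by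
    rw [LinearMap.ker_eq_bot']
    intro w hw
    exact hinj w hw
  obtain ⟨K, hK, hanti⟩ := (B₀ : E →ₗ[ℝ] F).exists_antilipschitzWith hker
  have hK' : (0 : ℝ) < K := by exact_mod_cast hK
  have hb : ∀ w, ‖w‖ ≤ K * ‖B₀ w‖ := by
    intro w
    have := hanti.le_mul_dist w 0
    simpa [dist_eq_norm] using this
  have hd : Tendsto (fun n => ‖B n - B₀‖) l (𝓝 0) := tendsto_iff_norm_sub_tendsto_zero.1 hB
  have hfd : Tendsto (fun n => ‖f n - f₀‖) l (𝓝 0) := tendsto_iff_norm_sub_tendsto_zero.1 hf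
  rw [tendsto_iff_norm_sub_tendsto_zero]
  have hbound : ∀ᶠ n in l, ‖x n - x₀‖ ≤ 2 * K * (‖B n - B₀‖ * ‖x₀‖ + ‖f n - f₀‖) := by
    have h1 : ∀ᶠ n in l, ‖B n - B₀‖ < 1 / (2 * K) := (tendsto_order.1 hd).2 _ (by positivity)
    filter_upwards [h1] with n hn
    have h2 : B₀ (x n - x₀) = (f n - f₀) - (B n - B₀) (x n - x₀) - (B n - B₀) x₀ := by
      rw [map_sub, hx₀, ← hx n, map_sub]
      simp only [sub_apply]
      rw [hx n, hx₀]
      abel
    have h3 : ‖x n - x₀‖ ≤ K * (‖f n - f₀‖ + ‖B n - B₀‖ * ‖x n - x₀‖ + ‖B n - B₀‖ * ‖x₀‖) := by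
      refine (hb _).trans (mul_le_mul_of_nonneg_left ?_ hK'.le)
      rw [h2]
      refine (norm_sub_le _ _).trans (add_le_add ((norm_sub_le _ _).trans
        (add_le_add le_rfl ?_)) ?_)
      · exact (B n - B₀).le_opNorm _
      · exact (B n - B₀).le_opNorm _
    have h4 : K * (‖B n - B₀‖ * ‖x n - x₀‖) ≤ 1 / 2 * ‖x n - x₀‖ := by
      have h5 : K * ‖B n - B₀‖ ≤ 1 / 2 := by
        have := mul_le_mul_of_nonneg_left hn.le hK'.le
        calc K * ‖B n - B₀‖ ≤ K * (1 / (2 * K)) := this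
          _ = 1 / 2 := by field_simp
      have := mul_le_mul_of_nonneg_right h5 (norm_nonneg (x n - x₀))
      linarith
    nlinarith
  have hz : Tendsto (fun n => 2 * K * (‖B n - B₀‖ * ‖x₀‖ + ‖f n - f₀‖)) l (𝓝 0) := by
    have := ((hd.mul_const ‖x₀‖).add hfd).const_mul (2 * (K : ℝ))
    simpa using this
  exact squeeze_zero' (Eventually.of_forall fun n => norm_nonneg _) hbound hz

end L1

open L1

namespace L1

section br

variable {R : Type*} [Ring R] [Algebra ℝ R]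

omit [Algebra ℝ R] in
lemma bl_add (a b c : R) : ⁅a + b, c⁆ = ⁅a, c⁆ + ⁅b, c⁆ := by
  simp only [Ring.lie_def]; noncomm_ring
omit [Algebra ℝ R] in
lemma bl_add' (a b c : R) : ⁅a, b + c⁆ = ⁅a, b⁆ + ⁅a, c⁆ := by
  simp only [Ring.lie_def]; noncomm_ring
omit [Algebra ℝ R] in
lemma bl_sub (a b c : R) : ⁅a - b, c⁆ = ⁅a, c⁆ - ⁅b, c⁆ := by
  simp only [Ring.lie_def]; noncomm_ring
lemma bl_smul (r : ℝ) (a b : R) : ⁅r • a, b⁆ = r • ⁅a, b⁆ := by
  simp only [Ring.lie_def, smul_mul_assoc, mul_smul_comm, smul_sub]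
lemma bl_smul' (r : ℝ) (a b : R) : ⁅a, r • b⁆ = r • ⁅a, b⁆ := by
  simp only [Ring.lie_def, smul_mul_assoc, mul_smul_comm, smul_sub]
omit [Algebra ℝ R] in
lemma bl_self (a : R) : ⁅a, a⁆ = 0 := by
  simp only [Ring.lie_def, sub_self]
omit [Algebra ℝ R] in
lemma bl_skew (a b : R) : ⁅a, b⁆ = -⁅b, a⁆ := by
  simp only [Ring.lie_def]; noncomm_ring

end br

end L1

section Lim

variable {𝔸 : Type*} [NormedRing 𝔸] [NormedAlgebra ℝ 𝔸] [FiniteDimensional ℝ 𝔸]
variable {g h m : Submodule ℝ 𝔸} {P : 𝔸 →L[ℝ] m} {L φ : m → ℝ}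

namespace L1

lemma eta_sc (hR : RedData g h m P) (hL : MinkData h m P L)
    (hhom : ∀ (c : ℝ) (u : m), L (c • u) = c ^ 2 * L u) {u : m} (hu : u ≠ 0) {c : ℝ}
    (hc : c ≠ 0) : eta P L (c • u) = c ^ 2 • eta P L u := by
  have hcu : c • u ≠ 0 := smul_ne_zero hc hu
  refine eta_unique hR hL hcu fun w => ?_
  rw [D2_smul hL.smooth hcu, D2_sc hL.smooth hhom hc hu, eta_spec hR hL hu,
    D1_sc hL.smooth hhom hc]
  rw [Submodule.coe_smul, bl_smul, map_smul, D1_smul hL.smooth hu]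
  ring

lemma deta_sc (hR : RedData g h m P) (hL : MinkData h m P L)
    (hhom : ∀ (c : ℝ) (u : m), L (c • u) = c ^ 2 * L u) {u : m} (hu : u ≠ 0) {c : ℝ}
    (hc : c ≠ 0) (b : m) : fderiv ℝ (eta P L) (c • u) b = c • fderiv ℝ (eta P L) u b := by
  have hcu : c • u ≠ 0 := smul_ne_zero hc hu
  have h1 := diffAt (eta_smooth hR hL) hcu
  have h2 := diffAt (eta_smooth hR hL) hu
  have e1 : HasFDerivAt (fun z : m => eta P L (c • z))
      ((fderiv ℝ (eta P L) (c • u)).comp (c • ContinuousLinearMap.id ℝ m)) u :=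
    HasFDerivAt.comp u h1.hasFDerivAt ((hasFDerivAt_id u).const_smul c)
  have e2 : HasFDerivAt (fun z : m => eta P L (c • z)) (c ^ 2 • fderiv ℝ (eta P L) u) u := by
    refine (h2.hasFDerivAt.const_smul (c ^ 2)).congr_of_eventuallyEq ?_
    filter_upwards [isOpen_ne.mem_nhds hu] with z hz
    exact eta_sc hR hL hhom hz hc
  have e3 := congrArg (fun A : m →L[ℝ] m => A b) (e1.unique e2)
  simp only [ContinuousLinearMap.comp_apply, smul_apply, ContinuousLinearMap.id_apply,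
    map_smul] at e3
  have e4 := congrArg (fun z => c⁻¹ • z) e3
  simp only [smul_smul] at e4
  rw [inv_mul_cancel₀ hc, one_smul] at e4
  rw [e4]
  congr 1
  field_simp

lemma deta_self (hR : RedData g h m P) (hL : MinkData h m P L)
    (hhom : ∀ (c : ℝ) (u : m), L (c • u) = c ^ 2 * L u) {u : m} (hu : u ≠ 0) :
    fderiv ℝ (eta P L) u u = (2 : ℝ) • eta P L u := by
  have := euler_gen (g := eta P L) (u := u) (n := 2) (fun c hc => by
    rw [eta_sc hR hL hhom hu hc]; norm_cast) (diffAt (eta_smooth hR hL) hu)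
  rw [this]; norm_num

end L1

theorem Rform_add_smul (hR : RedData g h m P) (hL : MinkData h m P L)
    (hhom : ∀ (c : ℝ) (u : m), L (c • u) = c ^ 2 * L u) {u : m} (hu : u ≠ 0) (b : m) (c : ℝ) :
    Rform P L u (b + c • u) = Rform P L u b := by
  have hf := hL.smooth
  have A1 := fun a a' b => D2_add hf hu a a' b
  have A2 : ∀ a b b', D2 L u a (b + b') = D2 L u a b + D2 L u a b' := fun a b b' => by
    rw [D2_symm hf hu, A1, D2_symm hf hu b, D2_symm hf hu b']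
  have S1 := fun (r : ℝ) a b => D2_smul hf hu r a b
  have S2 : ∀ (r : ℝ) a b, D2 L u a (r • b) = r * D2 L u a b := fun r a b => by
    rw [D2_symm hf hu, S1, D2_symm hf hu b]
  have l1 := fun a a' => D1_add hf hu a a'
  have l2 := fun (r : ℝ) a => D1_smul hf hu r a
  have E2 : ∀ a, D2 L u a u = D1 L u a := fun a => by rw [D2_symm hf hu, euler2 hf hhom hu]
  -- third derivatives, second slot
  have T2a : ∀ a b b' d, D3 L u a (b + b') d = D3 L u a b d + D3 L u a b' d := fun a b b' d => by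
    rw [D3_symm12 hf hu, D3_add hf hu, D3_symm12 hf hu b, D3_symm12 hf hu b']
  have T2s : ∀ (r : ℝ) a b d, D3 L u a (r • b) d = r * D3 L u a b d := fun r a b d => by
    rw [D3_symm12 hf hu, D3_smul hf hu, D3_symm12 hf hu b]
  have T3a : ∀ a b d d', D3 L u a b (d + d') = D3 L u a b d + D3 L u a b d' := fun a b d d' => by
    rw [D3_symm23 hf hu, T2a, D3_symm23 hf hu a d, D3_symm23 hf hu a d']
  have T3s : ∀ (r : ℝ) a b d, D3 L u a b (r • d) = r * D3 L u a b d := fun r a b d => by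
    rw [D3_symm23 hf hu, T2s, D3_symm23 hf hu a d]
  have E3 : ∀ a d, D3 L u a u d = 0 := fun a d => by
    rw [D3_symm12 hf hu, euler3 hf hhom hu]
  have E3' : ∀ a b, D3 L u a b u = 0 := fun a b => by
    rw [D3_symm23 hf hu, E3]
  have F3a : ∀ a b d d' e, D4 L u a b (d + d') e = D4 L u a b d e + D4 L u a b d' e :=
    fun a b d d' e => by
      rw [D4_symm23 hf hu, D4_symm12 hf hu, D4_add hf hu, D4_symm12 hf hu d,
        D4_symm12 hf hu d', D4_symm23 hf hu a d, D4_symm23 hf hu a d']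
  have F3s : ∀ (r : ℝ) a b d e, D4 L u a b (r • d) e = r * D4 L u a b d e :=
    fun r a b d e => by
      rw [D4_symm23 hf hu, D4_symm12 hf hu, D4_smul hf hu, D4_symm12 hf hu d,
        D4_symm23 hf hu a d]
  have F4a : ∀ a b d e e', D4 L u a b d (e + e') = D4 L u a b d e + D4 L u a b d e' :=
    fun a b d e e' => by
      rw [D4_symm34 hf hu, F3a, D4_symm34 hf hu a b e, D4_symm34 hf hu a b e']
  have F4s : ∀ (r : ℝ) a b d e, D4 L u a b d (r • e) = r * D4 L u a b d e :=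
    fun r a b d e => by
      rw [D4_symm34 hf hu, F3s, D4_symm34 hf hu a b e]
  have E4 : ∀ a b d, D4 L u a b d u = - D3 L u a b d := fun a b d => D4_euler hf hhom hu a b d
  have E4' : ∀ a b d, D4 L u a b u d = - D3 L u a b d := fun a b d => by
    rw [D4_symm34 hf hu, E4]
  -- the ingredients
  have hd : fderiv ℝ (eta P L) u (b + c • u) = fderiv ℝ (eta P L) u b + (2 * c) • eta P L u := by
    rw [map_add, map_smul, deta_self hR hL hhom hu, smul_smul, mul_comm c 2]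
  have hw : ⁅(u : 𝔸), ((b + c • u : m) : 𝔸)⁆ = ⁅(u : 𝔸), (b : 𝔸)⁆ := by
    rw [Submodule.coe_add, Submodule.coe_smul, bl_add', bl_smul', bl_self, smul_zero, add_zero]
  set η := eta P L u with hη
  set d := fderiv ℝ (eta P L) u b with hdd
  set k := fderiv ℝ (eta P L) u η with hk
  have r1 := eta_spec hR hL hu (P ⁅(u : 𝔸), (b : 𝔸)⁆)
  have r2 := eta_spec hR hL hu η
  have r3 := deta_spec hR hL hu b η
  have r4 : D1 L u (P ⁅(u : 𝔸), ⁅(u : 𝔸), (b : 𝔸)⁆⁆) =
      D1 L u (P ⁅(u : 𝔸), (P ⁅(u : 𝔸), (b : 𝔸)⁆ : 𝔸)⁆) := by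
    have hY := hR.res ⁅(u : 𝔸), (b : 𝔸)⁆ (hR.lie _ (hR.m_le u.2) _ (hR.m_le b.2))
    have h5 := hL.inv _ hY u hu
    rw [bl_sub, map_sub, bl_skew, bl_skew (P ⁅(u : 𝔸), (b : 𝔸)⁆ : 𝔸), map_neg,
      map_neg] at h5
    have h6 : P ⁅(u : 𝔸), ⁅(u : 𝔸), (b : 𝔸)⁆⁆ = P ⁅(u : 𝔸), (P ⁅(u : 𝔸), (b : 𝔸)⁆ : 𝔸)⁆ +
      (-1 : ℝ) • (-P ⁅(u : 𝔸), ⁅(u : 𝔸), (b : 𝔸)⁆⁆ -
        -P ⁅(u : 𝔸), (P ⁅(u : 𝔸), (b : 𝔸)⁆ : 𝔸)⁆) := by
      rw [neg_one_smul]; abel
    rw [h6, l1, l2, h5]; ring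
  unfold Rform
  rw [hd, hw, ← hη]
  rw [← hdd, ← hk]
  have e1 : d + (2 * c) • η + P ⁅(u : 𝔸), (b : 𝔸)⁆ = (d + P ⁅(u : 𝔸), (b : 𝔸)⁆) + (2 * c) • η := by
    abel
  rw [e1]
  have e2 : P ⁅((b + c • u : m) : 𝔸), ⁅(u : 𝔸), (b : 𝔸)⁆⁆ = P ⁅(b : 𝔸), ⁅(u : 𝔸), (b : 𝔸)⁆⁆ +
      c • P ⁅(u : 𝔸), ⁅(u : 𝔸), (b : 𝔸)⁆⁆ := by
    rw [Submodule.coe_add, Submodule.coe_smul, bl_add, bl_smul, map_add, map_smul]
  have e3 : P ⁅((b + c • u : m) : 𝔸), (η : 𝔸)⁆ = P ⁅(b : 𝔸), (η : 𝔸)⁆ +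
      c • P ⁅(u : 𝔸), (η : 𝔸)⁆ := by
    rw [Submodule.coe_add, Submodule.coe_smul, bl_add, bl_smul, map_add, map_smul]
  rw [e2, e3]
  set w := P ⁅(u : 𝔸), (b : 𝔸)⁆ with hww
  set q := d + w with hq
  have q1 : D2 L u η q = D2 L u η d + D2 L u η w := by rw [hq, A2]
  have q2 : D2 L u η d = D2 L u d η := D2_symm hf hu _ _
  have q3 : D2 L u q η = D2 L u η q := D2_symm hf hu _ _
  have q4 : D2 L u b (P ⁅(u : 𝔸), (η : 𝔸)⁆) = D2 L u (P ⁅(u : 𝔸), (η : 𝔸)⁆) b :=
    D2_symm hf hu _ _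
  have q5 : D3 L u b η η = D3 L u η η b := by
    rw [D3_symm12 hf hu, D3_symm23 hf hu]
  simp only [A1, A2, S1, S2, l1, l2, E2, T2a, T2s, T3a, T3s, E3, E3', F3a, F3s, F4a, F4s, E4, E4',
    mul_zero, add_zero, mul_neg, neg_zero]
  linear_combination (c) * q1 + c * q2 + c / 2 * q3 + c * r1 + c * r4 + c * r3 - c * q4 -
    c * q5 + c ^ 2 * r2

theorem Rform_smul_left (hR : RedData g h m P) (hL : MinkData h m P L)
    (hhom : ∀ (c : ℝ) (u : m), L (c • u) = c ^ 2 * L u) {u : m} (hu : u ≠ 0) (b : m) {c : ℝ}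
    (hc : c ≠ 0) : Rform P L (c • u) b = c ^ 2 * Rform P L u b := by
  have hf := hL.smooth
  have hcu : c • u ≠ 0 := smul_ne_zero hc hu
  have S1 := fun (r : ℝ) a b => D2_smul hf hu r a b
  have S2 : ∀ (r : ℝ) a b, D2 L u a (r • b) = r * D2 L u a b := fun r a b => by
    rw [D2_symm hf hu, S1, D2_symm hf hu b]
  have l2 := fun (r : ℝ) a => D1_smul hf hu r a
  have T1s := fun (r : ℝ) a b d => D3_smul hf hu r a b d
  have T3s : ∀ (r : ℝ) a b d, D3 L u a b (r • d) = r * D3 L u a b d := fun r a b d => by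
    rw [D3_symm23 hf hu, D3_symm12 hf hu, D3_smul hf hu, D3_symm12 hf hu d, D3_symm23 hf hu a d]
  have F1s := fun (r : ℝ) a b d e => D4_smul hf hu r a b d e
  have F2s : ∀ (r : ℝ) a b d e, D4 L u a (r • b) d e = r * D4 L u a b d e :=
    fun r a b d e => by
      rw [D4_symm12 hf hu, D4_smul hf hu, D4_symm12 hf hu b]
  have d2 := fun a b => D2_sc hf hhom hc hu a b
  have d1 := fun a => D1_sc hf hhom hc u a
  have d3 : ∀ a b d, D3 L (c • u) a b d = c⁻¹ * D3 L u a b d := fun a b d => by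
    rw [← D3_sc hf hhom hc hu a b d, ← mul_assoc, inv_mul_cancel₀ hc, one_mul]
  have d4 : ∀ a b d e, D4 L (c • u) a b d e = (c ^ 2)⁻¹ * D4 L u a b d e := fun a b d e => by
    rw [← D4_sc hf hhom hc hu a b d e, ← mul_assoc, inv_mul_cancel₀ (pow_ne_zero 2 hc), one_mul]
  unfold Rform
  simp only [d1, d2, d3, d4, eta_sc hR hL hhom hu hc, deta_sc hR hL hhom hu hc]
  simp only [Submodule.coe_smul, bl_smul, bl_smul', map_smul, S1, S2, l2, T1s, T3s, F1s, F2s,
    ← smul_add, smul_smul]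
  field_simp

omit [FiniteDimensional ℝ 𝔸] in
theorem Rform_smul_right (_hR : RedData g h m P) (hL : MinkData h m P L) {u : m} (hu : u ≠ 0)
    (b : m) (c : ℝ) : Rform P L u (c • b) = c ^ 2 * Rform P L u b := by
  have hf := hL.smooth
  have S1 := fun (r : ℝ) a b => D2_smul hf hu r a b
  have S2 : ∀ (r : ℝ) a b, D2 L u a (r • b) = r * D2 L u a b := fun r a b => by
    rw [D2_symm hf hu, S1, D2_symm hf hu b]
  have l2 := fun (r : ℝ) a => D1_smul hf hu r a
  have T2s : ∀ (r : ℝ) a b d, D3 L u a (r • b) d = r * D3 L u a b d := fun r a b d => by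
    rw [D3_symm12 hf hu, D3_smul hf hu, D3_symm12 hf hu b]
  have T3s : ∀ (r : ℝ) a b d, D3 L u a b (r • d) = r * D3 L u a b d := fun r a b d => by
    rw [D3_symm23 hf hu, T2s, D3_symm23 hf hu a d]
  have F3s : ∀ (r : ℝ) a b d e, D4 L u a b (r • d) e = r * D4 L u a b d e :=
    fun r a b d e => by
      rw [D4_symm23 hf hu, D4_symm12 hf hu, D4_smul hf hu, D4_symm12 hf hu d,
        D4_symm23 hf hu a d]
  have F4s : ∀ (r : ℝ) a b d e, D4 L u a b d (r • e) = r * D4 L u a b d e :=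
    fun r a b d e => by
      rw [D4_symm34 hf hu, F3s, D4_symm34 hf hu a b e]
  unfold Rform
  simp only [Submodule.coe_smul, bl_smul, bl_smul', map_smul, S1, S2, l2, T2s, T3s, F3s, F4s,
    ← smul_add]
  ring

/-- continuity of the solution of a linear system -/
theorem solve_tendsto {E : Type*} [NormedAddCommGroup E] [NormedSpace ℝ E]
    [FiniteDimensional ℝ E] {ι : Type*} {l : Filter ι} {B : ι → E →L[ℝ] E →L[ℝ] ℝ}
    {B₀ : E →L[ℝ] E →L[ℝ] ℝ} (hB : Tendsto B l (𝓝 B₀)) (hpos : ∀ w : E, w ≠ 0 → 0 < B₀ w w)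
    {f : ι → E →L[ℝ] ℝ} {f₀ : E →L[ℝ] ℝ} (hf : Tendsto f l (𝓝 f₀)) {x : ι → E} {x₀ : E}
    (hx : ∀ n, B n (x n) = f n) (hx₀ : B₀ x₀ = f₀) : Tendsto x l (𝓝 x₀) := by
  refine L1.solve_gen hB (fun w hw => ?_) hf hx hx₀
  by_contra hne
  have h1 := hpos w hne
  rw [hw] at h1
  simp at h1

end Lim

end Pool.Agent.Helper93.Fin
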